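import Mathlib

/-! Removing a random nonzero residue class for each small prime. -/

open Finset

namespace Pool.Agent.P.MP_26a8c3_nt.Adm

/-- chance that `n` survives the removal of a random nonzero class modulo `q` -/
noncomputable def surv (q n : ℕ) : ℝ := if q ∣ n then 1 else 1 - 1 / ((q : ℝ) - 1)

lemma surv_nonneg {q : ℕ} (hq : 2 ≤ q) (n : ℕ) : 0 ≤ surv q n := by
  unfold surv
  split_ifs
  · norm_num
  · have : (2 : ℝ) ≤ q := by exact_mod_cast hq
    have h1 : 1 / ((q : ℝ) - 1) ≤ 1 := by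
      rw [div_le_one (by linarith)]; linarith
    linarith

lemma surv_le_one {q : ℕ} (hq : 2 ≤ q) (n : ℕ) : surv q n ≤ 1 := by
  unfold surv
  split_ifs
  · norm_num
  · have : (2 : ℝ) ≤ q := by exact_mod_cast hq
    have h1 : 0 ≤ 1 / ((q : ℝ) - 1) := by
      apply div_nonneg <;> linarith
    linarith

lemma count_cls {q : ℕ} (hq : 2 ≤ q) (n : ℕ) :
    ∑ b ∈ Ico 1 q, (if n ≡ b [MOD q] then (0 : ℝ) else 1) = ((q : ℝ) - 1) * surv q n := by
  have hq' : (2 : ℝ) ≤ q := by exact_mod_cast hq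
  have hcard : ((Ico 1 q).card : ℝ) = (q : ℝ) - 1 := by
    rw [Nat.card_Ico, Nat.cast_sub (by omega)]; simp
  unfold surv
  split_ifs with h
  · rw [mul_one, ← hcard, card_eq_sum_ones, Nat.cast_sum]
    refine sum_congr rfl fun b hb => ?_
    rw [mem_Ico] at hb
    rw [if_neg]
    · simp
    · intro hm
      have : q ∣ b := (hm.dvd_iff dvd_rfl).1 h
      have := Nat.le_of_dvd (by omega) this
      omega
  · have hr : n % q ∈ Ico 1 q := by
      rw [mem_Ico]
      refine ⟨?_, Nat.mod_lt _ (by omega)⟩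
      rcases Nat.eq_zero_or_pos (n % q) with h0 | h0
      · exact absurd (Nat.dvd_of_mod_eq_zero h0) h
      · exact h0
    have h1 : ∀ b ∈ Ico 1 q, (if n ≡ b [MOD q] then (0 : ℝ) else 1) =
        1 - (if b = n % q then 1 else 0) := by
      intro b hb
      rw [mem_Ico] at hb
      have : n ≡ b [MOD q] ↔ b = n % q := by
        unfold Nat.ModEq
        rw [Nat.mod_eq_of_lt hb.2]
        exact eq_comm
      by_cases hb' : b = n % q
      · rw [if_pos (this.2 hb'), if_pos hb']; norm_num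
      · rw [if_neg (fun hh => hb' (this.1 hh)), if_neg hb']; norm_num
    rw [sum_congr rfl h1, sum_sub_distrib, sum_ite_eq' _ (n % q), if_pos hr]
    simp only [sum_const, nsmul_eq_mul, mul_one, hcard]
    have : (q : ℝ) - 1 ≠ 0 := by linarith
    field_simp

lemma one_step {q : ℕ} (hq : 2 ≤ q) (S0 : Finset ℕ) (f : ℕ → ℝ) :
    ∃ b : ℕ, ∑ n ∈ S0, f n * surv q n ≤ ∑ n ∈ S0, f n * (if n ≡ b [MOD q] then 0 else 1) := by
  have hq' : (2 : ℝ) ≤ q := by exact_mod_cast hq
  have hcard : ((Ico 1 q).card : ℝ) = (q : ℝ) - 1 := by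
    rw [Nat.card_Ico, Nat.cast_sub (by omega)]; simp
  have hne : (Ico 1 q).Nonempty := ⟨1, by rw [mem_Ico]; omega⟩
  have : ∑ _b ∈ Ico 1 q, ∑ n ∈ S0, f n * surv q n ≤
      ∑ b ∈ Ico 1 q, ∑ n ∈ S0, f n * (if n ≡ b [MOD q] then 0 else 1) := by
    rw [sum_comm (s := Ico 1 q) (t := S0) (f := fun b n => f n * (if n ≡ b [MOD q] then 0 else 1))]
    simp only [← mul_sum, count_cls hq, sum_const, nsmul_eq_mul, hcard]
    rw [mul_sum]
    exact le_of_eq (sum_congr rfl fun n _ => by ring)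
  obtain ⟨b, _, hb⟩ := exists_le_of_sum_le hne this
  exact ⟨b, hb⟩

theorem avg (P : Finset ℕ) (hP : ∀ q ∈ P, 2 ≤ q) (S0 : Finset ℕ) (f : ℕ → ℝ) :
    ∃ b : ℕ → ℕ, ∑ n ∈ S0, f n * ∏ q ∈ P, surv q n ≤
      ∑ n ∈ S0, f n * ∏ q ∈ P, (if n ≡ b q [MOD q] then 0 else 1) := by
  induction P using Finset.induction_on generalizing f with
  | empty => exact ⟨fun _ => 0, by simp⟩
  | insert q P hq ih =>
    obtain ⟨b0, h0⟩ := one_step (hP q (mem_insert_self _ _)) S0 (fun n => f n * ∏ r ∈ P, surv r n)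
    obtain ⟨b, hb⟩ := ih (fun r hr => hP r (mem_insert_of_mem hr))
      (fun n => f n * (if n ≡ b0 [MOD q] then 0 else 1))
    refine ⟨Function.update b q b0, ?_⟩
    calc _ = ∑ n ∈ S0, (f n * ∏ r ∈ P, surv r n) * surv q n :=
          sum_congr rfl fun n _ => by rw [prod_insert hq]; ring
      _ ≤ _ := h0
      _ = ∑ n ∈ S0, (f n * (if n ≡ b0 [MOD q] then 0 else 1)) * ∏ r ∈ P, surv r n :=
          sum_congr rfl fun n _ => by ring
      _ ≤ _ := hb
      _ = _ := by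
          refine sum_congr rfl fun n _ => ?_
          rw [prod_insert hq, Function.update_self, mul_assoc]
          congr 2
          refine prod_congr rfl fun r hr => ?_
          rw [Function.update_of_ne (by rintro rfl; exact hq hr)]

open Classical in
theorem avg_card (P : Finset ℕ) (hP : ∀ q ∈ P, 2 ≤ q) (S0 : Finset ℕ) :
    ∃ b : ℕ → ℕ, ∑ n ∈ S0, ∏ q ∈ P, surv q n ≤
      ((S0.filter fun n => ∀ q ∈ P, ¬ n ≡ b q [MOD q]).card : ℝ) := by
  obtain ⟨b, hb⟩ := avg P hP S0 (fun _ => 1)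
  refine ⟨b, ?_⟩
  simp only [one_mul] at hb
  refine hb.trans (le_of_eq ?_)
  rw [card_filter, Nat.cast_sum]
  refine sum_congr rfl fun n _ => ?_
  by_cases h : ∀ q ∈ P, ¬ n ≡ b q [MOD q]
  · rw [if_pos h, prod_eq_one fun q hq => if_neg (h q hq)]; simp
  · rw [if_neg h]
    push Not at h
    obtain ⟨q, hq, hq'⟩ := h
    rw [prod_eq_zero (f := fun q => if n ≡ b q [MOD q] then (0 : ℝ) else 1) hq (if_pos hq')]
    simp

end Pool.Agent.P.MP_26a8c3_nt.Adm
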