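import Mathlib

/-! A small set containing a full residue class modulo every large number. -/

open Finset

namespace Pool.Agent.P.MP_26a8c3_nt.Adm

open Classical in
lemma card_sq (q : ℕ) (hq : q.Prime) (h2 : q ≠ 2) (t : ℕ) :
    ((range q).filter (fun n => IsSquare ((4 * n + t ^ 2 : ℕ) : ZMod q))).card ≤ (q + 1) / 2 := by
  haveI := Fact.mk hq
  have hodd : q % 2 = 1 := (hq.eq_two_or_odd).resolve_left h2
  have h4 : (4 : ZMod q) ≠ 0 := by
    have h2' : (2 : ZMod q) ≠ 0 := by
      intro h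
      have : ((2 : ℕ) : ZMod q) = 0 := by exact_mod_cast h
      rw [ZMod.natCast_eq_zero_iff] at this
      exact h2 ((Nat.prime_dvd_prime_iff_eq hq Nat.prime_two).1 this)
    have : (4 : ZMod q) = 2 * 2 := by norm_num
    rw [this]; exact mul_ne_zero h2' h2'
  calc _ ≤ ((range ((q + 1) / 2)).image (fun u : ℕ => ((u : ZMod q)) ^ 2)).card := by
        refine card_le_card_of_injOn (fun n => ((4 * n + t ^ 2 : ℕ) : ZMod q)) ?_ ?_
        · intro n hn
          simp only [coe_filter, Set.mem_setOf_eq] at hn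
          obtain ⟨v, hv⟩ := hn.2
          simp only [coe_image, Set.mem_image, mem_coe, mem_range]
          have hlt := ZMod.val_lt v
          by_cases hc : v.val < (q + 1) / 2
          · exact ⟨v.val, hc, by rw [hv, ZMod.natCast_zmod_val]; ring⟩
          · refine ⟨q - v.val, by omega, ?_⟩
            rw [hv, Nat.cast_sub hlt.le, ZMod.natCast_self, ZMod.natCast_zmod_val]; ring
        · intro a ha b hb hab
          simp only [coe_filter, Set.mem_setOf_eq, mem_range] at ha hb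
          have h : (4 : ZMod q) * a = 4 * b := by
            have := hab
            simp only [Nat.cast_add, Nat.cast_mul, Nat.cast_ofNat, Nat.cast_pow] at this
            exact add_right_cancel this
          have h' : (a : ZMod q) = b := mul_left_cancel₀ h4 h
          have := (ZMod.natCast_eq_natCast_iff' a b q).1 h'
          rwa [Nat.mod_eq_of_lt ha.1, Nat.mod_eq_of_lt hb.1] at this
    _ ≤ _ := by simpa using card_image_le (s := range ((q + 1) / 2)) (f := fun u : ℕ => ((u : ZMod q)) ^ 2)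

lemma modEq_prod (S : Finset ℕ) (hS : ∀ q ∈ S, q.Prime) {a b : ℕ}
    (h : ∀ q ∈ S, a ≡ b [MOD q]) : a ≡ b [MOD ∏ q ∈ S, q] := by
  induction S using Finset.induction_on with
  | empty => simp [Nat.modEq_one]
  | insert q S hq ih =>
    rw [prod_insert hq]
    have hc : Nat.Coprime q (∏ r ∈ S, r) := by
      refine Nat.Coprime.prod_right fun r hr => ?_
      refine (Nat.coprime_primes (hS q (mem_insert_self _ _)) (hS r (mem_insert_of_mem hr))).2 ?_
      rintro rfl; exact hq hr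
    exact (Nat.modEq_and_modEq_iff_modEq_mul hc).1
      ⟨h q (mem_insert_self _ _),
        ih (fun r hr => hS r (mem_insert_of_mem hr)) fun r hr => h r (mem_insert_of_mem hr)⟩

open Classical in
lemma card_crt (S : Finset ℕ) (hS : ∀ q ∈ S, q.Prime) (B : ℕ → Finset ℕ) :
    ((range (∏ q ∈ S, q)).filter (fun n => ∀ q ∈ S, n % q ∈ B q)).card ≤ ∏ q ∈ S, (B q).card := by
  rw [← card_pi]
  refine card_le_card_of_injOn (fun n => fun q _ => n % q) ?_ ?_
  · intro n hn
    simp only [coe_filter, Set.mem_setOf_eq] at hn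
    simp only [mem_coe, mem_pi]
    exact hn.2
  · intro a ha b hb hab
    simp only [coe_filter, Set.mem_setOf_eq, mem_range] at ha hb
    have h : a ≡ b [MOD ∏ q ∈ S, q] :=
      modEq_prod S hS fun q hq => congrFun (congrFun hab q) hq
    have := h
    unfold Nat.ModEq at this
    rwa [Nat.mod_eq_of_lt ha.1, Nat.mod_eq_of_lt hb.1] at this

lemma card_per (Q T : ℕ) (hQ : 0 < Q) (R : Finset ℕ) :
    ((Icc 1 T).filter (fun n => n % Q ∈ R)).card ≤ (T / Q + 1) * R.card := by
  have : (T / Q + 1) * R.card = (range (T / Q + 1) ×ˢ R).card := by simp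
  rw [this]
  refine card_le_card_of_injOn (fun n => (n / Q, n % Q)) ?_ ?_
  · intro n hn
    simp only [coe_filter, Set.mem_setOf_eq, mem_Icc] at hn
    simp only [coe_product, Set.mem_prod, mem_coe, mem_range]
    exact ⟨Nat.lt_succ_of_le (Nat.div_le_div_right hn.1.2), hn.2⟩
  · intro a _ b _ hab
    simp only [Prod.mk.injEq] at hab
    rw [← Nat.div_add_mod a Q, ← Nat.div_add_mod b Q, hab.1, hab.2]

open Classical in
lemma card_height (S : Finset ℕ) (hS : ∀ q ∈ S, q.Prime ∧ q ≠ 2) (T t : ℕ) :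
    (((Icc 1 T).filter (fun n => ∀ q ∈ S, IsSquare ((4 * n + t ^ 2 : ℕ) : ZMod q))).card : ℝ) ≤
      ((T : ℝ) + (∏ q ∈ S, q : ℕ)) * (2 / 3) ^ S.card := by
  set Q := ∏ q ∈ S, q with hQd
  have hQ : 0 < Q := prod_pos fun q hq => (hS q hq).1.pos
  set B : ℕ → Finset ℕ := fun q =>
    (range q).filter (fun n => IsSquare ((4 * n + t ^ 2 : ℕ) : ZMod q)) with hB
  set R := (range Q).filter (fun n => ∀ q ∈ S, n % q ∈ B q) with hR
  have h1 : ((Icc 1 T).filter (fun n => ∀ q ∈ S, IsSquare ((4 * n + t ^ 2 : ℕ) : ZMod q))) ⊆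
      (Icc 1 T).filter (fun n => n % Q ∈ R) := by
    intro n hn
    rw [mem_filter] at hn ⊢
    refine ⟨hn.1, ?_⟩
    rw [hR, mem_filter, mem_range]
    refine ⟨Nat.mod_lt _ hQ, fun q hq => ?_⟩
    rw [Nat.mod_mod_of_dvd _ (dvd_prod_of_mem _ hq), hB]
    simp only [mem_filter, mem_range]
    refine ⟨Nat.mod_lt _ (hS q hq).1.pos, ?_⟩
    have := hn.2 q hq
    simpa using this
  have h2 := (card_le_card h1).trans (card_per Q T hQ R)
  have h3 : R.card ≤ ∏ q ∈ S, (B q).card := card_crt S (fun q hq => (hS q hq).1) B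
  have h4 : ((∏ q ∈ S, (B q).card : ℕ) : ℝ) ≤ Q * (2 / 3) ^ S.card := by
    rw [hQd, Nat.cast_prod, Nat.cast_prod, ← prod_const, ← prod_mul_distrib]
    refine prod_le_prod (fun q _ => by positivity) fun q hq => ?_
    have h5 := card_sq q (hS q hq).1 (hS q hq).2 t
    have h6 : 3 ≤ q := by
      have := (hS q hq).1.two_le
      have := (hS q hq).2
      omega
    have h7 : 3 * (B q).card ≤ 2 * q := by
      have : (B q).card ≤ (q + 1) / 2 := h5
      omega
    have h8 : (3 : ℝ) * (B q).card ≤ 2 * q := by exact_mod_cast h7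
    linarith
  have h5 : ((T / Q + 1 : ℕ) : ℝ) * Q ≤ T + Q := by
    have : (T / Q + 1) * Q ≤ T + Q := by
      have := Nat.div_mul_le_self T Q
      nlinarith
    exact_mod_cast this
  calc _ ≤ (((T / Q + 1) * R.card : ℕ) : ℝ) := by exact_mod_cast h2
    _ ≤ ((T / Q + 1 : ℕ) : ℝ) * (Q * (2 / 3) ^ S.card) := by
        rw [Nat.cast_mul]
        refine mul_le_mul_of_nonneg_left (le_trans ?_ h4) (by positivity)
        exact_mod_cast h3
    _ = ((T / Q + 1 : ℕ) : ℝ) * Q * (2 / 3) ^ S.card := by ring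
    _ ≤ _ := by gcongr

/-- the Kakeya set -/
theorem kak (S : Finset ℕ) (hS : ∀ q ∈ S, q.Prime ∧ q ≠ 2) (T M : ℕ) :
    ∃ K : Finset ℕ, (K.card : ℝ) ≤ (M + 1) * (((T : ℝ) + (∏ q ∈ S, q : ℕ)) * (2 / 3) ^ S.card) ∧
      ∀ p : ℕ, ∏ q ∈ S, q ≤ p → T < p * (M + 1) →
        ∃ a : ℕ, ∀ n ∈ Icc 1 T, n ≡ a [MOD p] → n ∈ K := by
  classical
  set Q := ∏ q ∈ S, q with hQd
  have hQ : 0 < Q := prod_pos fun q hq => (hS q hq).1.pos
  refine ⟨(range (M + 1)).biUnion fun t =>
    (Icc 1 T).filter (fun n => ∀ q ∈ S, IsSquare ((4 * n + t ^ 2 : ℕ) : ZMod q)), ?_, ?_⟩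
  · calc _ ≤ ((∑ t ∈ range (M + 1), ((Icc 1 T).filter
          (fun n => ∀ q ∈ S, IsSquare ((4 * n + t ^ 2 : ℕ) : ZMod q))).card : ℕ) : ℝ) := by
          exact_mod_cast card_biUnion_le
      _ ≤ ∑ _t ∈ range (M + 1), ((T : ℝ) + Q) * (2 / 3) ^ S.card := by
          rw [Nat.cast_sum]
          refine sum_le_sum fun t _ => ?_
          convert card_height S hS T t
      _ = _ := by simp
  · intro p hp hT
    have hp0 : 0 < p := lt_of_lt_of_le hQ hp
    refine ⟨(p ^ 2 - 1) % Q + 1, fun n hn hna => ?_⟩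
    set a := (p ^ 2 - 1) % Q + 1 with ha
    have haQ : a ≤ Q := Nat.mod_lt _ hQ
    have ha1 : 1 ≤ a := by omega
    have hap : a ≡ p ^ 2 [MOD Q] := by
      have h1 : 1 ≤ p ^ 2 := Nat.one_le_pow _ _ hp0
      have : (p ^ 2 - 1) % Q + 1 ≡ (p ^ 2 - 1) + 1 [MOD Q] := (Nat.mod_modEq _ _).add_right 1
      rwa [Nat.sub_add_cancel h1] at this
    rw [mem_Icc] at hn
    have hle : a ≤ n := by
      by_contra hlt
      push Not at hlt
      have hd : p ∣ a - n := (Nat.modEq_iff_dvd' hlt.le).1 hna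
      have := Nat.le_of_dvd (by omega) hd
      omega
    obtain ⟨t, ht⟩ : p ∣ n - a := (Nat.modEq_iff_dvd' hle).1 hna.symm
    have hn' : n = a + p * t := by omega
    have htM : t < M + 1 := by
      by_contra hc
      push Not at hc
      have : p * (M + 1) ≤ p * t := Nat.mul_le_mul_left _ hc
      omega
    rw [mem_biUnion]
    refine ⟨t, mem_range.2 htM, mem_filter.2 ⟨mem_Icc.2 hn, fun q hq => ?_⟩⟩
    have h1 : a ≡ p ^ 2 [MOD q] := hap.of_dvd (dvd_prod_of_mem _ hq)
    have h2 : (a : ZMod q) = (p : ZMod q) ^ 2 := by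
      have := (ZMod.natCast_eq_natCast_iff _ _ _).2 h1
      simpa using this
    refine ⟨2 * p + t, ?_⟩
    rw [hn']
    push_cast
    rw [h2]; ring

end Pool.Agent.P.MP_26a8c3_nt.Adm
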