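import Pool.Agent.P.MP_26a8c3_nt.Adm.Mom
import Pool.Agent.P.MP_26a8c3_nt.Adm.K

/-! The admissible set for given parameters. -/

open Finset

namespace Pool.Agent.P.MP_26a8c3_nt.Adm

lemma mem_Sm {Y M m : ℕ} : m ∈ Sm Y M ↔ (1 ≤ m ∧ m ≤ M) ∧ m ∈ Nat.factoredNumbers (OP Y) := by
  unfold Sm
  simp only [mem_filter, mem_Icc]

lemma Sm_dvd {Y M m q : ℕ} (hm : m ∈ Sm Y M) (hq : q.Prime) (h : q ∣ m) : q ∈ OP Y := by
  have := (mem_Sm.1 hm).2
  exact this.2 q ((Nat.mem_primeFactorsList this.1).2 ⟨hq, h⟩)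

lemma card_primes (z n : ℕ) :
    (Nat.primeCounting n : ℝ) - z ≤ (((Ioc z n).filter Nat.Prime).card : ℝ) := by
  have h : Nat.primesLE n ⊆ (Ioc z n).filter Nat.Prime ∪ Ioc 0 z := by
    intro p hp
    rw [Nat.mem_primesLE] at hp
    simp only [mem_union, mem_filter, mem_Ioc]
    by_cases h : p ≤ z
    · exact Or.inr ⟨hp.2.pos, h⟩
    · exact Or.inl ⟨⟨by omega, hp.1⟩, hp.2⟩
  have h2 := (card_le_card h).trans (card_union_le _ _)
  rw [Nat.primesLE_card_eq_primeCounting, Nat.card_Ioc] at h2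
  have : (Nat.primeCounting n : ℝ) ≤ (((Ioc z n).filter Nat.Prime).card : ℝ) + z := by
    exact_mod_cast h2
  linarith

theorem build (T M M' Y : ℕ) (S : Finset ℕ) (hS : ∀ q ∈ S, q.Prime ∧ q ≠ 2) (hY : 2 ≤ Y)
    (hYM : Y ≤ M') (hz : M' ≤ T / (M + 1)) (hQ : ∏ q ∈ S, q ≤ T / (M + 1)) :
    ∃ A : Finset ℕ, A ⊆ Icc 1 T ∧ (∀ p : ℕ, p.Prime → ∃ a : ℕ, ∀ n ∈ A, ¬ n ≡ a [MOD p]) ∧
      ∑ m ∈ Sm Y M', (∏ q ∈ OP Y, surv q m) *
          ((Nat.primeCounting (T / m) : ℝ) - (T / (M + 1) : ℕ)) -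
        (M + 1) * (((T : ℝ) + (∏ q ∈ S, q : ℕ)) * (2 / 3) ^ S.card) ≤ A.card := by
  classical
  set z := T / (M + 1) with hzd
  obtain ⟨K, hK, hcov⟩ := kak S hS T M
  set D := (Sm Y M').sigma (fun m => (Ioc z (T / m)).filter Nat.Prime) with hD
  have memD : ∀ x ∈ D, x.1 ∈ Sm Y M' ∧ z < x.2 ∧ x.2 ≤ T / x.1 ∧ x.2.Prime := by
    intro x hx
    rw [hD, mem_sigma, mem_filter, mem_Ioc] at hx
    exact ⟨hx.1, hx.2.1.1, hx.2.1.2, hx.2.2⟩
  have inj : ∀ x ∈ D, ∀ y ∈ D, x.1 * x.2 = y.1 * y.2 → x = y := by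
    rintro ⟨m, p⟩ hx ⟨m', p'⟩ hy h
    obtain ⟨a1, a2, _, a4⟩ := memD _ hx
    obtain ⟨b1, _, _, b4⟩ := memD _ hy
    simp only at a1 a2 a4 b1 b4 h
    have h1 : p ∣ m' * p' := h ▸ Dvd.intro_left m rfl
    have h2 : p = p' := by
      rcases (Nat.Prime.dvd_mul a4).1 h1 with h3 | h3
      · have := Nat.le_of_dvd (mem_Sm.1 b1).1.1 h3
        have := (mem_Sm.1 b1).1.2
        omega
      · exact (Nat.prime_dvd_prime_iff_eq a4 b4).1 h3
    subst h2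
    have h3 : m = m' := Nat.eq_of_mul_eq_mul_right a4.pos h
    subst h3
    rfl
  set S0 := D.image (fun x => x.1 * x.2) with hS0
  have hP : ∀ q ∈ OP Y, 2 ≤ q := fun q hq => (mem_OP.1 hq).2.2.two_le
  obtain ⟨b, hb⟩ := avg_card (OP Y) hP S0
  set Sb := S0.filter fun n => ∀ q ∈ OP Y, ¬ n ≡ b q [MOD q] with hSb
  have hsub : S0 ⊆ Icc 1 T := by
    intro n hn
    obtain ⟨x, hx, rfl⟩ := mem_image.1 hn
    obtain ⟨a1, _, a3, a4⟩ := memD _ hx
    have h1 := (mem_Sm.1 a1).1.1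
    rw [mem_Icc]
    refine ⟨Nat.mul_pos h1 a4.pos, ?_⟩
    rw [Nat.le_div_iff_mul_le h1, mul_comm] at a3
    exact a3
  refine ⟨Sb \ K, fun n hn => hsub (mem_filter.1 (mem_sdiff.1 hn).1).1, fun p hp => ?_, ?_⟩
  · by_cases h1 : p ∈ OP Y
    · exact ⟨b p, fun n hn => (mem_filter.1 (mem_sdiff.1 hn).1).2 p h1⟩
    by_cases h2 : p ≤ z
    · refine ⟨0, fun n hn hm => ?_⟩
      obtain ⟨x, hx, rfl⟩ := mem_image.1 (mem_filter.1 (mem_sdiff.1 hn).1).1
      obtain ⟨a1, a2, _, a4⟩ := memD _ hx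
      rcases (Nat.Prime.dvd_mul hp).1 (Nat.modEq_zero_iff_dvd.1 hm) with h3 | h3
      · exact h1 (Sm_dvd a1 hp h3)
      · have := (Nat.prime_dvd_prime_iff_eq hp a4).1 h3
        omega
    · push Not at h2
      obtain ⟨a, ha⟩ := hcov p (by omega) ((Nat.div_lt_iff_lt_mul (by omega)).1 h2)
      exact ⟨a, fun n hn hm =>
        (mem_sdiff.1 hn).2 (ha n (hsub (mem_filter.1 (mem_sdiff.1 hn).1).1) hm)⟩
  · have h1 : (Sb.card : ℝ) - K.card ≤ (Sb \ K).card := by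
      have := le_card_sdiff K Sb
      have h2 : Sb.card ≤ (Sb \ K).card + K.card := by omega
      have : (Sb.card : ℝ) ≤ (Sb \ K).card + K.card := by exact_mod_cast h2
      linarith
    have h2 : ∑ m ∈ Sm Y M', (∏ q ∈ OP Y, surv q m) * ((Nat.primeCounting (T / m) : ℝ) - z) ≤
        ∑ n ∈ S0, ∏ q ∈ OP Y, surv q n := by
      rw [hS0, sum_image fun x hx y hy h => inj x hx y hy h, hD, sum_sigma]
      refine sum_le_sum fun m hm => ?_
      have e : ∀ p ∈ (Ioc z (T / m)).filter Nat.Prime,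
          ∏ q ∈ OP Y, surv q (m * p) = ∏ q ∈ OP Y, surv q m := by
        intro p hp
        rw [mem_filter, mem_Ioc] at hp
        refine prod_congr rfl fun q hq => ?_
        obtain ⟨_, c2, c3⟩ := mem_OP.1 hq
        have : q ∣ m * p ↔ q ∣ m := by
          rw [Nat.Prime.dvd_mul c3]
          refine ⟨fun h => h.resolve_right fun h' => ?_, Or.inl⟩
          have := (Nat.prime_dvd_prime_iff_eq c3 hp.2).1 h'
          omega
        unfold surv
        simp only [this]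
      rw [sum_congr rfl e, sum_const, nsmul_eq_mul, mul_comm (((_ : Finset ℕ).card : ℕ) : ℝ)]
      exact mul_le_mul_of_nonneg_left (card_primes z (T / m))
        (prod_nonneg fun q hq => surv_nonneg (hP q hq) m)
    linarith

end Pool.Agent.P.MP_26a8c3_nt.Adm
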