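import Pool.Agent.P.MP_26a8c3_nt.Adm.Avg

/-! The law of the smooth cofactor. -/

open Finset

namespace Pool.Agent.P.MP_26a8c3_nt.Adm

noncomputable def cf (q : ℕ) : ℝ := ((q : ℝ) - 1) / ((q : ℝ) - 2)

noncomputable def fs (s : ℝ) (m : ℕ) : ℝ := (∏ q ∈ m.primeFactors, cf q) * (m : ℝ) ^ (s - 1)

noncomputable def GG (s : ℝ) (q : ℕ) : ℝ :=
  1 - 1 / ((q : ℝ) - 1) + (q : ℝ) ^ (s - 1) / (1 - (q : ℝ) ^ (s - 1))

lemma fs_one (s : ℝ) : fs s 1 = 1 := by simp [fs]

lemma fs_mul (s : ℝ) {m n : ℕ} (h : Nat.Coprime m n) : fs s (m * n) = fs s m * fs s n := by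
  unfold fs
  rw [h.primeFactors_mul, prod_union h.disjoint_primeFactors, Nat.cast_mul,
    Real.mul_rpow (Nat.cast_nonneg _) (Nat.cast_nonneg _)]
  ring

lemma fs_pow (s : ℝ) {p : ℕ} (hp : p.Prime) (n : ℕ) :
    fs s (p ^ (n + 1)) = cf p * (p : ℝ) ^ (s - 1) * ((p : ℝ) ^ (s - 1)) ^ n := by
  unfold fs
  rw [Nat.primeFactors_prime_pow (by omega) hp, prod_singleton, Nat.cast_pow,
    ← Real.rpow_natCast, ← Real.rpow_mul (Nat.cast_nonneg _), mul_comm (((n + 1 : ℕ) : ℝ)),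
    Real.rpow_mul (Nat.cast_nonneg _), Real.rpow_natCast]
  ring

lemma rho_lt {s : ℝ} (hs : s < 1) {p : ℕ} (hp : p.Prime) : (p : ℝ) ^ (s - 1) < 1 :=
  Real.rpow_lt_one_of_one_lt_of_neg (by exact_mod_cast hp.one_lt) (by linarith)

lemma fs_hasSum {s : ℝ} (hs : s < 1) {p : ℕ} (hp : p.Prime) :
    HasSum (fun n : ℕ => fs s (p ^ n))
      (1 + cf p * ((p : ℝ) ^ (s - 1) / (1 - (p : ℝ) ^ (s - 1)))) := by
  have h0 : 0 ≤ (p : ℝ) ^ (s - 1) := Real.rpow_nonneg (Nat.cast_nonneg _) _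
  have h1 := (hasSum_geometric_of_lt_one h0 (rho_lt hs hp)).mul_left (cf p * (p : ℝ) ^ (s - 1))
  rw [← hasSum_nat_add_iff' 1]
  simp only [range_one, sum_singleton, pow_zero, fs_one, add_sub_cancel_left, fs_pow s hp]
  rw [div_eq_mul_inv ((p : ℝ) ^ (s - 1)), ← mul_assoc]
  exact h1

lemma w_eq (P : Finset ℕ) (hP : ∀ q ∈ P, q.Prime ∧ q ≠ 2) {m : ℕ}
    (hm : m ∈ Nat.factoredNumbers P) :
    ∏ q ∈ P, surv q m = (∏ q ∈ P, (1 - 1 / ((q : ℝ) - 1))) * ∏ q ∈ m.primeFactors, cf q := by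
  have hm0 : m ≠ 0 := hm.1
  have hsub : m.primeFactors ⊆ P := fun q hq => hm.2 q (by simpa using hq)
  have : ∏ q ∈ m.primeFactors, cf q = ∏ q ∈ P, if q ∣ m then cf q else 1 := by
    rw [← prod_filter]
    refine prod_congr ?_ fun _ _ => rfl
    ext q
    simp only [mem_filter]
    constructor
    · intro h
      exact ⟨hsub h, Nat.dvd_of_mem_primeFactors h⟩
    · intro h
      exact Nat.mem_primeFactors.2 ⟨(hP q h.1).1, h.2, hm0⟩
  rw [this, ← prod_mul_distrib]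
  refine prod_congr rfl fun q hq => ?_
  have h3 : 3 ≤ q := by
    have := (hP q hq).1.two_le
    have := (hP q hq).2
    omega
  have h3' : (3 : ℝ) ≤ q := by exact_mod_cast h3
  unfold surv cf
  split_ifs
  · have : (q : ℝ) - 1 ≠ 0 := by linarith
    have : (q : ℝ) - 2 ≠ 0 := by linarith
    field_simp
    ring
  · ring

theorem euler (P : Finset ℕ) (hP : ∀ q ∈ P, q.Prime ∧ q ≠ 2) {s : ℝ} (hs : s < 1) :
    HasSum (fun m : Nat.factoredNumbers P => (∏ q ∈ P, surv q m) * ((m : ℕ) : ℝ) ^ (s - 1))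
      (∏ q ∈ P, GG s q) := by
  have h := (EulerProduct.summable_and_hasSum_factoredNumbers_prod_filter_prime_tsum
    (f := fs s) (fs_one s) (fun h => fs_mul s h)
    (fun hp => (fs_hasSum hs hp).summable.norm) P).2
  have h2 := h.mul_left (∏ q ∈ P, (1 - 1 / ((q : ℝ) - 1)))
  rw [filter_true_of_mem fun q hq => (hP q hq).1, ← prod_mul_distrib] at h2
  have e1 : (fun m : Nat.factoredNumbers P => (∏ q ∈ P, surv q m) * ((m : ℕ) : ℝ) ^ (s - 1)) =
      fun m : Nat.factoredNumbers P => (∏ q ∈ P, (1 - 1 / ((q : ℝ) - 1))) * fs s m := by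
    funext m
    rw [w_eq P hP m.2, fs]; ring
  have e2 : ∏ q ∈ P, GG s q =
      ∏ q ∈ P, (1 - 1 / ((q : ℝ) - 1)) * ∑' n : ℕ, fs s (q ^ n) := by
    refine prod_congr rfl fun q hq => ?_
    rw [(fs_hasSum hs (hP q hq).1).tsum_eq]
    have h3 : 3 ≤ q := by
      have := (hP q hq).1.two_le
      have := (hP q hq).2
      omega
    have h3' : (3 : ℝ) ≤ q := by exact_mod_cast h3
    unfold GG cf
    have : (q : ℝ) - 1 ≠ 0 := by linarith
    have : (q : ℝ) - 2 ≠ 0 := by linarith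
    generalize (q : ℝ) ^ (s - 1) / (1 - (q : ℝ) ^ (s - 1)) = y
    field_simp
    ring
  rw [e1, e2]
  exact h2

lemma GG_zero {q : ℕ} (hq : 3 ≤ q) : GG 0 q = 1 := by
  have h3' : (3 : ℝ) ≤ q := by exact_mod_cast hq
  unfold GG
  rw [zero_sub, Real.rpow_neg_one]
  have : (q : ℝ) - 1 ≠ 0 := by linarith
  have : (q : ℝ) ≠ 0 := by linarith
  field_simp
  ring

lemma GG_nonneg {s : ℝ} (hs : s < 1) {q : ℕ} (hq : q.Prime) : 0 ≤ GG s q := by
  have h2 : (2 : ℝ) ≤ q := by exact_mod_cast hq.two_le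
  unfold GG
  have h1 : 1 / ((q : ℝ) - 1) ≤ 1 := by
    rw [div_le_one (by linarith)]; linarith
  have h0 : 0 ≤ (q : ℝ) ^ (s - 1) := Real.rpow_nonneg (Nat.cast_nonneg _) _
  have := rho_lt hs hq
  have : 0 ≤ (q : ℝ) ^ (s - 1) / (1 - (q : ℝ) ^ (s - 1)) := div_nonneg h0 (by linarith)
  linarith

lemma GG_pos_le {s e : ℝ} (hs : 0 ≤ s) (hs2 : s ≤ 1 / 2) {q : ℕ} (hq : 3 ≤ q)
    (h : s * Real.log q ≤ e) :
    GG s q ≤ Real.exp (9 / 2 * Real.exp e * s * (Real.log q / q)) := by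
  have h3 : (3 : ℝ) ≤ q := by exact_mod_cast hq
  have hl : 0 ≤ Real.log q := Real.log_nonneg (by linarith)
  set v := s * Real.log q with hv
  have hv0 : 0 ≤ v := mul_nonneg hs hl
  have hx : (q : ℝ) ^ (s - 1) = Real.exp v / q := by
    rw [Real.rpow_sub (by linarith), Real.rpow_one, Real.rpow_def_of_pos (by linarith), hv,
      mul_comm]
  have hx1 : 1 ≤ Real.exp v := Real.one_le_exp hv0
  have hx2 : Real.exp v - 1 ≤ v * Real.exp e := by
    have h1 := Real.add_one_le_exp (-v)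
    have h2 : Real.exp v * Real.exp (-v) = 1 := by rw [← Real.exp_add]; simp
    have h4 : Real.exp v ≤ Real.exp e := Real.exp_le_exp.2 h
    have h5 := mul_le_mul_of_nonneg_left h1 (Real.exp_pos v).le
    have h6 := mul_le_mul_of_nonneg_left h4 hv0
    nlinarith
  have hx4 : Real.exp v * Real.exp v ≤ q := by
    rw [← Real.exp_add, ← Real.exp_log (show (0 : ℝ) < q by linarith), Real.exp_le_exp]
    have := mul_le_mul_of_nonneg_right hs2 hl
    linarith
  set x := Real.exp v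
  set y := Real.exp e
  have hy : 0 < y := Real.exp_pos e
  have hx3 : x ≤ 2 * q / 3 := by
    by_contra hc
    push Not at hc
    nlinarith
  refine le_trans ?_ (Real.add_one_le_exp _)
  unfold GG
  rw [hx]
  have e1 : x / q / (1 - x / q) = x / (q - x) := by
    have : (q : ℝ) - x ≠ 0 := by linarith
    have : (q : ℝ) ≠ 0 := by linarith
    field_simp
  have e2 : x / (q - x) - 1 / ((q : ℝ) - 1) = q * (x - 1) / ((q - x) * (q - 1)) := by
    have : (q : ℝ) - x ≠ 0 := by linarith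
    have : (q : ℝ) - 1 ≠ 0 := by linarith
    field_simp
    ring
  have e3 : 9 / 2 * y * s * (Real.log q / q) = 9 / 2 * (v * y) / q := by rw [hv]; ring
  have hvy : 0 ≤ v * y := mul_nonneg hv0 hy.le
  have e4 : q * (x - 1) / ((q - x) * ((q : ℝ) - 1)) ≤ 9 / 2 * (v * y) / q := by
    rw [div_le_div_iff₀ (mul_pos (by linarith) (by linarith)) (by linarith)]
    have a1 : (q : ℝ) / 3 ≤ q - x := by linarith
    have a2 : 2 * (q : ℝ) / 3 ≤ q - 1 := by linarith
    have a3 : (q : ℝ) / 3 * (2 * q / 3) ≤ (q - x) * (q - 1) :=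
      mul_le_mul a1 a2 (by linarith) (by linarith)
    have a4 : (q : ℝ) * (x - 1) * q ≤ q * (v * y) * q := by gcongr
    have a5 : 9 / 2 * (v * y) * ((q : ℝ) / 3 * (2 * q / 3)) ≤
        9 / 2 * (v * y) * ((q - x) * (q - 1)) :=
      mul_le_mul_of_nonneg_left a3 (by linarith)
    nlinarith
  rw [e1, e3]
  linarith

lemma GG_neg_le {s : ℝ} (hs : 0 ≤ s) {q : ℕ} (hq : 3 ≤ q) (h : s * Real.log q ≤ 1 / 2) :
    GG (-s) q ≤ Real.exp (-(s / 2 * (Real.log q / q))) := by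
  have h3 : (3 : ℝ) ≤ q := by exact_mod_cast hq
  have hl : 0 ≤ Real.log q := Real.log_nonneg (by linarith)
  set v := s * Real.log q with hv
  have hv0 : 0 ≤ v := mul_nonneg hs hl
  have hx : (q : ℝ) ^ (-s - 1) = Real.exp (-v) / q := by
    rw [Real.rpow_sub (by linarith), Real.rpow_one, Real.rpow_def_of_pos (by linarith), hv]
    congr 2; ring
  have hy0 : 0 < Real.exp (-v) := Real.exp_pos _
  have hy1 : Real.exp (-v) ≤ 1 - v / 2 := by
    have h1 : 1 + v ≤ Real.exp v := by linarith [Real.add_one_le_exp v]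
    rw [Real.exp_neg, inv_le_comm₀ (Real.exp_pos _) (by linarith)]
    refine le_trans ?_ h1
    rw [inv_le_comm₀ (by linarith) (by linarith), inv_eq_one_div, div_le_iff₀ (by linarith)]
    nlinarith
  set y := Real.exp (-v)
  refine le_trans ?_ (Real.add_one_le_exp _)
  unfold GG
  rw [hx]
  have e1 : y / q / (1 - y / q) = y / (q - y) := by
    have : (q : ℝ) - y ≠ 0 := by linarith
    have : (q : ℝ) ≠ 0 := by linarith
    field_simp
  have e2 : 1 / ((q : ℝ) - 1) - y / (q - y) = q * (1 - y) / ((q - y) * (q - 1)) := by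
    have : (q : ℝ) - y ≠ 0 := by linarith
    have : (q : ℝ) - 1 ≠ 0 := by linarith
    field_simp
    ring
  have e3 : s / 2 * (Real.log q / q) = (v / 2) / q := by rw [hv]; ring
  have e4 : (v / 2) / q ≤ q * (1 - y) / ((q - y) * ((q : ℝ) - 1)) := by
    rw [div_le_div_iff₀ (by linarith) (mul_pos (by linarith) (by linarith))]
    have a3 : (q - y) * ((q : ℝ) - 1) ≤ q * q :=
      mul_le_mul (by linarith) (by linarith) (by linarith) (by linarith)
    have a4 : v / 2 * ((q - y) * ((q : ℝ) - 1)) ≤ v / 2 * (q * q) :=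
      mul_le_mul_of_nonneg_left a3 (by linarith)
    have a5 : v / 2 * ((q : ℝ) * q) ≤ (1 - y) * (q * q) :=
      mul_le_mul_of_nonneg_right (by linarith) (by positivity)
    nlinarith
  rw [e1, e3]
  linarith

end Pool.Agent.P.MP_26a8c3_nt.Adm
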