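import Pool.Agent.P.MP_26a8c3_nt.Adm.Main

/-! Dense admissible sets. -/

open Finset Filter

namespace Pool.Agent.P.MP_26a8c3_nt.Adm

lemma two_thirds {r : ℕ} {R : ℝ} (h : R / 12 ≤ r) : (2 / 3 : ℝ) ^ r ≤ Real.exp (-(R / 36)) := by
  have h1 : (2 / 3 : ℝ) ≤ Real.exp (-(1 / 3)) := by
    linarith [Real.add_one_le_exp (-(1 / 3) : ℝ)]
  calc (2 / 3 : ℝ) ^ r ≤ Real.exp (-(1 / 3)) ^ r := by gcongr
    _ = Real.exp (r * -(1 / 3)) := by rw [← Real.exp_nat_mul]
    _ ≤ _ := by rw [Real.exp_le_exp]; linarith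

lemma last {T l g d E c1 c2 c3 e : ℝ} (hT : 0 ≤ T / l) (he : 0 ≤ e) (hE : E ≤ 2)
    (h0 : 1 + g - d ≤ E) (h1 : 2 * e ≤ d) (h2 : c2 ≤ T / l * d) (h3 : c3 ≤ T / l * d)
    (h4 : 4 * d ≤ g / 2) (hc : c1 = T / l * (1 - e) * E) :
    (1 + g / 2) * T / l ≤ c1 - c2 - c3 := by
  have a1 : 1 + g / 2 + 2 * d ≤ (1 - e) * E := by nlinarith
  have a2 := mul_le_mul_of_nonneg_left a1 hT
  have a3 : (1 + g / 2) * T / l = T / l * (1 + g / 2) := by ring
  rw [hc, a3]
  nlinarith

theorem main : ∀ᶠ T : ℕ in atTop,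
    ∃ A : Finset ℕ, A ⊆ Icc 1 T ∧ (∀ p : ℕ, p.Prime → ∃ a : ℕ, ∀ n ∈ A, ¬ n ≡ a [MOD p]) ∧
      (1 + 1 / 64000 * Real.log (Real.log (Real.log (Real.log T))) /
        (Real.log (Real.log T) * Real.log (Real.log (Real.log T)))) * T / Real.log T ≤ A.card := by
  obtain ⟨C, hC, hsize⟩ := size
  obtain ⟨C2, hC2, hpi⟩ := pi_lower
  obtain ⟨Y0, hmom⟩ := moment
  set K : ℝ := 10 ^ 9 * (1 + C + C2 + |Y0|) with hK
  have t1 : Tendsto (fun T : ℕ => Real.log T) atTop atTop :=
    Real.tendsto_log_atTop.comp tendsto_natCast_atTop_atTop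
  have t2 := Real.tendsto_log_atTop.comp t1
  have t3 := Real.tendsto_log_atTop.comp t2
  have t4 := Real.tendsto_log_atTop.comp t3
  filter_upwards [t2.eventually (ev_pow K), t3.eventually (ev_pow K), t4.eventually_ge_atTop 100,
    t1.eventually_gt_atTop 0, t2.eventually_gt_atTop 0, t3.eventually_gt_atTop 0,
    eventually_gt_atTop 0] with T k2 k3 hx hl0 hv0 hw0 hT0
  simp only [Function.comp] at k2 k3 hx hv0 hw0
  have hT0' : (0 : ℝ) < T := by exact_mod_cast hT0
  have eT : Real.exp (Real.log T) = T := Real.exp_log hT0'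
  set l := Real.log T with hl
  have el : Real.exp (Real.log l) = l := Real.exp_log hl0
  set v := Real.log l with hv
  have ev : Real.exp (Real.log v) = v := Real.exp_log hv0
  set w := Real.log v with hw
  have ew : Real.exp (Real.log w) = w := Real.exp_log hw0
  set x := Real.log w with hxd
  rw [el] at k2
  rw [ev] at k3
  have hY0 := abs_nonneg Y0
  have hY0' := le_abs_self Y0
  have hK9 : 10 ^ 9 ≤ K := by rw [hK]; linarith
  have hCK : 10 ^ 9 * C ≤ K := by rw [hK]; linarith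
  have hCK2 : 10 ^ 9 * C2 ≤ K := by rw [hK]; linarith
  have hKY : Y0 ≤ K := by rw [hK]; linarith
  have hK0 : 0 ≤ K := by linarith
  clear_value K
  have hxw : x ≤ w := by linarith [Real.add_one_le_exp x]
  have hwv : w ≤ v := by linarith [Real.add_one_le_exp w]
  have hw1 : 100 ≤ w := by linarith
  have hv1 : 100 ≤ v := by linarith
  have hw4 : w ≤ w ^ 4 := le_self_pow₀ (by linarith) (by norm_num)
  have hKw : K * w ≤ v := le_trans (mul_le_mul_of_nonneg_left hw4 (by linarith)) k3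
  have hKv : K ≤ v := by linarith [mul_le_mul_of_nonneg_left hw1 hK0]
  have hv2 : v ^ 2 ≤ v ^ 4 := pow_le_pow_right₀ (by linarith) (by norm_num)
  have hvw : v * w ≤ v ^ 2 := by rw [sq]; exact mul_le_mul_of_nonneg_left hwv hv0.le
  have hvw0 : 0 < v * w := by positivity
  have hKl : K * (v * w) ≤ l :=
    le_trans (mul_le_mul_of_nonneg_left (hvw.trans hv2) (by linarith)) k2
  have hvw1 : 100 * 100 ≤ v * w := mul_le_mul hv1 hw1 (by norm_num) hv0.le
  have hl1 : 1000 ≤ l := by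
    linarith [mul_le_mul_of_nonneg_left hvw1 hK0]
  set R := l / v with hR
  have hRl : R ≤ l := div_le_self hl0.le (by linarith)
  have hR3 : K * v ^ 3 ≤ R := by
    rw [hR, le_div_iff₀ hv0]; linarith [show K * v ^ 3 * v = K * v ^ 4 by ring]
  have hv3 : v * (v * w) ≤ v ^ 3 := by
    linarith [mul_le_mul_of_nonneg_left hvw hv0.le, show v * v ^ 2 = v ^ 3 by ring]
  have hR4 : K * (v * (v * w)) ≤ R :=
    le_trans (mul_le_mul_of_nonneg_left hv3 (by linarith)) hR3
  have hvv : v ≤ v * (v * w) := le_mul_of_one_le_right hv0.le (by linarith)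
  have hKv9 : 10 ^ 9 * v ≤ K * v := mul_le_mul_of_nonneg_right hK9 hv0.le
  have hR5 : 1000 * v ≤ R := by linarith [mul_le_mul_of_nonneg_left hvv hK0]
  set a := R * x / (2000 * w) with ha
  set b := R / 200 with hb
  have ha1 : K * v ≤ a := by
    rw [ha, le_div_iff₀ (by positivity)]
    have h1 : K * (v * (v * w)) * 100 ≤ R * x := mul_le_mul hR4 hx (by norm_num) (by linarith)
    have h2 : K * v * (2000 * w) ≤ K * (v * (v * w)) * 100 := by
      have h0 : 0 ≤ K * (v * w) := by positivity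
      linarith [mul_le_mul_of_nonneg_left hv1 h0,
        show K * v * (2000 * w) = 2000 * (K * (v * w)) by ring,
        show K * (v * (v * w)) * 100 = 100 * (K * (v * w) * v) by ring]
    linarith
  have ha2 : a ≤ R / 2000 := by
    rw [ha, div_le_div_iff₀ (by positivity) (by norm_num)]
    have : R * x ≤ R * w := mul_le_mul_of_nonneg_left hxw (by linarith)
    linarith
  have haK : 100 * K ≤ a := by linarith [mul_le_mul_of_nonneg_left hv1 hK0]
  have hav : 100 * v ≤ a := by linarith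
  obtain ⟨y1, _, _, y4, y5⟩ := floor_exp (a := a) (by linarith)
  obtain ⟨m1, m2, m3, _, m5⟩ := floor_exp (a := b) (by linarith)
  have hYM : ⌊Real.exp a⌋₊ ≤ ⌊Real.exp b⌋₊ :=
    Nat.floor_le_floor (Real.exp_le_exp.2 (by linarith))
  set Y := ⌊Real.exp a⌋₊
  set M' := ⌊Real.exp b⌋₊
  have hM1 : (1 : ℝ) ≤ M' := by exact_mod_cast (by omega : 1 ≤ M')
  have hLY : 0 < Real.log Y := by linarith
  have hu : 8 * w / x ≤ Real.log M' / Real.log Y := by
    rw [le_div_iff₀ hLY]
    have h1 : 8 * w / x * a = R / 250 := by rw [ha]; field_simp; ring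
    have h2 := mul_le_mul_of_nonneg_left y4 (show 0 ≤ 8 * w / x by positivity)
    linarith
  obtain ⟨e0, e1, e2⟩ := tail hx ew hu
  have hm := hmom Y M' (1 / l) _ y1 (by linarith) (by omega) (by positivity)
    (by
      have : 2 * (1 / l) * Real.log Y = 2 * Real.log Y / l := by ring
      rw [this, div_le_one hl0]; linarith) e0 (by linarith)
  set g := x / (32000 * (v * w)) with hg
  set d := 1 / (256000 * (v * w)) with hd
  have hd0 : 0 < d := by positivity
  have hdl : ∀ c : ℝ, 256000 * c ≤ K → c / l ≤ d := by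
    intro c hc
    rw [hd, div_le_div_iff₀ hl0 (by positivity)]
    have := mul_le_mul_of_nonneg_right hc hvw0.le
    linarith
  have hg1 : g ≤ 1 / l * Real.log Y / 8 := by
    have h1 : g = 1 / l * (a / 2) / 8 := by rw [hg, ha, hR]; field_simp; ring
    rw [h1]
    gcongr
    linarith
  have hg2 : g ≤ 1 := by
    rw [hg, div_le_one (by positivity)]
    linarith [mul_le_mul_of_nonneg_right hv1 hw0.le]
  have htl : 2 * Real.exp (-(2 * w)) ≤ d := by
    have h1 : Real.exp (-(2 * w)) = 1 / v ^ 2 := by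
      rw [Real.exp_neg, two_mul, Real.exp_add, ev]; field_simp
    rw [h1, hd, mul_one_div, div_le_div_iff₀ (by positivity) (by positivity)]
    have h2 : 512000 * w ≤ v := by linarith [mul_le_mul_of_nonneg_right hK9 hw0.le]
    linarith [mul_le_mul_of_nonneg_left h2 hv0.le, show v * v = v ^ 2 by ring,
      show v * (512000 * w) = 512000 * (v * w) by ring]
  have hE : 1 + g - d ≤ ∑ m ∈ Sm Y M', (∏ q ∈ OP Y, surv q m) / m *
      (1 + 1 / l * Real.log m) := by
    have := Real.exp_le_exp.2 e2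
    linarith
  have hMsq : (M' : ℝ) ^ 2 + 1 ≤ 2 * Real.exp (R / 100) := by
    have h1 : (M' : ℝ) ^ 2 ≤ Real.exp b ^ 2 := by gcongr
    have h2 : Real.exp b ^ 2 = Real.exp (R / 100) := by
      rw [← Real.exp_nat_mul, hb]; congr 1; push_cast; ring
    have h3 : (1 : ℝ) ≤ (M' : ℝ) ^ 2 := one_le_pow₀ hM1
    linarith
  have hbig : ∀ c : ℝ, 0 ≤ c → c ≤ 3 * Real.exp (l / 2) → c * ((M' : ℝ) ^ 2 + 1) ≤ T := by
    intro c hc0 hc
    have h1 : Real.exp (R / 100) ≤ Real.exp (l / 4) := Real.exp_le_exp.2 (by linarith)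
    have h2 : 6 ≤ Real.exp (l / 4) := by linarith [Real.add_one_le_exp (l / 4)]
    have h3 : Real.exp l = Real.exp (l / 2) * Real.exp (l / 4) * Real.exp (l / 4) := by
      rw [← Real.exp_add, ← Real.exp_add]; congr 1; ring
    calc c * ((M' : ℝ) ^ 2 + 1) ≤ 3 * Real.exp (l / 2) * (2 * Real.exp (l / 4)) :=
          mul_le_mul hc (by linarith) (by positivity) (by positivity)
      _ = Real.exp (l / 2) * Real.exp (l / 4) * 6 := by ring
      _ ≤ Real.exp (l / 2) * Real.exp (l / 4) * Real.exp (l / 4) := by gcongr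
      _ = T := by rw [← h3, eT]
  have hz : 3 * M' ≤ T / (M' ^ 2 + 1) := by
    rw [Nat.le_div_iff_mul_le (by positivity)]
    have h1 : Real.exp b ≤ Real.exp (l / 2) := Real.exp_le_exp.2 (by linarith)
    have := hbig (3 * M') (by positivity) (by linarith)
    exact_mod_cast this
  have hQ : ∏ q ∈ OP ⌊l / 4⌋₊, q ≤ T / (M' ^ 2 + 1) := by
    rw [Nat.le_div_iff_mul_le (by positivity)]
    have h1 := prod_OP hl0.le
    have h2 := Real.exp_pos (l / 2)
    have := hbig ((∏ q ∈ OP ⌊l / 4⌋₊, q : ℕ) : ℝ) (by positivity) (by linarith)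
    exact_mod_cast this
  have hvl : v ≤ l := by linarith
  obtain ⟨A, h1, h2, h3⟩ := hsize T M' Y (OP ⌊l / 4⌋₊) (1 + g - d)
    (fun q hq => ⟨(mem_OP.1 hq).2.2, (mem_OP.1 hq).1⟩) y1 hYM hz hQ (by linarith) hE
  refine ⟨A, h1, h2, le_trans ?_ h3⟩
  have hgg : 1 / 64000 * x / (v * w) = g / 2 := by rw [hg]; field_simp; ring
  rw [hgg]
  have hTl : 0 ≤ (T : ℝ) / l := by positivity
  have hl2 : Real.exp (2 * v) = l ^ 2 := by rw [two_mul, Real.exp_add, el]; ring
  refine last (d := d) (e := 4 * C / l) hTl (by positivity) (by linarith) le_rfl ?_ ?_ ?_ ?_ rfl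
  · have := hdl (8 * C) (by linarith)
    linarith [show 2 * (4 * C / l) = 8 * C / l by ring]
  · have a1 := hdl 2 (by linarith)
    have a2 : l ^ 2 ≤ Real.exp b := by rw [← hl2]; exact Real.exp_le_exp.2 (by linarith)
    calc (T : ℝ) / M' ≤ T / (l ^ 2 / 2) := by gcongr; linarith
      _ = T / l * (2 / l) := by field_simp
      _ ≤ _ := by gcongr
  · have a1 := hdl 4 (by linarith)
    have a2 := card_OP hpi (l := l) (by linarith) (by linarith) (by linarith)
    have a3 := two_thirds (r := (OP ⌊l / 4⌋₊).card) (R := R) (by linarith)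
    have a4 : Real.exp (R / 100) * Real.exp (-(R / 36)) ≤ 1 / l ^ 2 := by
      rw [← Real.exp_add, ← hl2, one_div, ← Real.exp_neg, Real.exp_le_exp]
      linarith
    calc ((M' : ℝ) ^ 2 + 1) * (2 * T * (2 / 3) ^ (OP ⌊l / 4⌋₊).card)
        ≤ 2 * Real.exp (R / 100) * (2 * T * Real.exp (-(R / 36))) := by gcongr
      _ = 4 * T * (Real.exp (R / 100) * Real.exp (-(R / 36))) := by ring
      _ ≤ 4 * T * (1 / l ^ 2) := by gcongr
      _ = T / l * (4 / l) := by field_simp
      _ ≤ _ := by gcongr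
  · rw [hg, hd]
    have : 4 * (1 / (256000 * (v * w))) = 1 / (32000 * (v * w)) / 2 := by field_simp; ring
    rw [this]
    gcongr
    linarith

end Pool.Agent.P.MP_26a8c3_nt.Adm
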