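import Pool.Agent.P.MP_26a8c3_nt.Adm.Pi

/-! Choice of the parameters. -/

open Finset Filter

namespace Pool.Agent.P.MP_26a8c3_nt.Adm

lemma ev_pow (K : ℝ) : ∀ᶠ v : ℝ in atTop, K * v ^ 4 ≤ Real.exp v := by
  filter_upwards [(Real.tendsto_exp_div_pow_atTop 4).eventually_ge_atTop K,
    eventually_gt_atTop 0] with v h hv
  rwa [le_div_iff₀ (by positivity)] at h

lemma floor_exp {a : ℝ} (ha : 2 ≤ a) :
    2 ≤ ⌊Real.exp a⌋₊ ∧ (⌊Real.exp a⌋₊ : ℝ) ≤ Real.exp a ∧ Real.exp a / 2 ≤ ⌊Real.exp a⌋₊ ∧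
      Real.log ⌊Real.exp a⌋₊ ≤ a ∧ a - 1 ≤ Real.log ⌊Real.exp a⌋₊ := by
  have h1 : 3 ≤ Real.exp a := by linarith [Real.add_one_le_exp a]
  have h2 : (⌊Real.exp a⌋₊ : ℝ) ≤ Real.exp a := Nat.floor_le (by linarith)
  have h3 := Nat.lt_floor_add_one (Real.exp a)
  have h4 : Real.exp a / 2 ≤ ⌊Real.exp a⌋₊ := by linarith
  refine ⟨Nat.le_floor (by push_cast; linarith), h2, h4, ?_, ?_⟩
  · have := Real.log_le_log (by linarith) h2
    rwa [Real.log_exp] at this
  · have := Real.log_le_log (by linarith) h4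
    rw [Real.log_div (by linarith) (by norm_num), Real.log_exp] at this
    linarith [Real.log_two_lt_d9]

lemma card_OP {C : ℝ} (h : ∀ x : ℝ, 3 ≤ x →
      x / Real.log x - C * x / Real.log x ^ 2 ≤ (Nat.primeCounting ⌊x⌋₊ : ℝ))
    {l : ℝ} (hl : 12 ≤ l) (hv : 4 ≤ Real.log l) (hC : 4 * C ≤ Real.log l) :
    l / Real.log l / 8 - 1 ≤ (OP ⌊l / 4⌋₊).card := by
  have h1 := h (l / 4) (by linarith)
  have h4 : Real.log 4 ≤ 2 := by
    have : Real.log 4 = 2 * Real.log 2 := by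
      rw [show (4 : ℝ) = 2 ^ 2 by norm_num, Real.log_pow]; norm_num
    linarith [Real.log_two_lt_d9]
  have h40 : 0 ≤ Real.log 4 := Real.log_nonneg (by norm_num)
  rw [Real.log_div (by linarith) (by norm_num)] at h1
  set v := Real.log l
  set y := v - Real.log 4 with hy
  have hy1 : v / 2 ≤ y := by linarith
  have hy2 : y ≤ v := by linarith
  have hy0 : 0 < y := by linarith
  have a1 : C * (l / 4) / y ^ 2 ≤ l / 4 / y / 2 := by
    rw [div_le_iff₀ (by positivity)]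
    have : l / 4 / y / 2 * y ^ 2 = y / 2 * (l / 4) := by field_simp
    rw [this]
    exact mul_le_mul_of_nonneg_right (by linarith) (by linarith)
  have a2 : l / 4 / v ≤ l / 4 / y := by gcongr
  have a3 : l / v / 8 = l / 4 / v / 2 := by ring
  have a4 : (Nat.primeCounting ⌊l / 4⌋₊ : ℝ) - 1 ≤ (OP ⌊l / 4⌋₊).card := by
    unfold OP
    rw [← Nat.primesLE_eq_filter_Ioc_zero, ← Nat.primesLE_card_eq_primeCounting]
    have := pred_card_le_card_erase (s := Nat.primesLE ⌊l / 4⌋₊) (a := 2)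
    have h2 : (Nat.primesLE ⌊l / 4⌋₊).card ≤ ((Nat.primesLE ⌊l / 4⌋₊).erase 2).card + 1 := by omega
    have : ((Nat.primesLE ⌊l / 4⌋₊).card : ℝ) ≤ ((Nat.primesLE ⌊l / 4⌋₊).erase 2).card + 1 := by
      exact_mod_cast h2
    linarith
  linarith

lemma prod_OP {l : ℝ} (hl : 0 ≤ l) : ((∏ q ∈ OP ⌊l / 4⌋₊, q : ℕ) : ℝ) ≤ Real.exp (l / 2) := by
  have h1 : ∏ q ∈ OP ⌊l / 4⌋₊, q ≤ primorial ⌊l / 4⌋₊ := by
    unfold primorial
    refine prod_le_prod_of_subset_of_one_le' (fun q hq => ?_) fun q hq _ => ?_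
    · obtain ⟨_, b, c⟩ := mem_OP.1 hq
      exact mem_filter.2 ⟨mem_range.2 (by omega), c⟩
    · exact (mem_filter.1 hq).2.one_le
  have h2 := h1.trans (primorial_le_four_pow _)
  have h3 : ((∏ q ∈ OP ⌊l / 4⌋₊, q : ℕ) : ℝ) ≤ 4 ^ ⌊l / 4⌋₊ := by exact_mod_cast h2
  refine h3.trans ?_
  have h4 : (4 : ℝ) ≤ Real.exp 2 := by
    have := Real.add_one_le_exp (1 : ℝ)
    rw [show (2 : ℝ) = 1 + 1 by norm_num, Real.exp_add]
    nlinarith
  calc (4 : ℝ) ^ ⌊l / 4⌋₊ ≤ Real.exp 2 ^ ⌊l / 4⌋₊ := by gcongr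
    _ = Real.exp (⌊l / 4⌋₊ * 2) := by rw [← Real.exp_nat_mul]
    _ ≤ _ := by
        rw [Real.exp_le_exp]
        have := Nat.floor_le (show 0 ≤ l / 4 by linarith)
        linarith

lemma tail {w x u : ℝ} (hx : 100 ≤ x) (hw : Real.exp x = w) (hu : 8 * w / x ≤ u) :
    0 ≤ Real.log (8 * w / x / 18) ∧ Real.log (8 * w / x / 18) ≤ 8 * w ∧
      9 * Real.log (8 * w / x / 18) * Real.exp (Real.log (8 * w / x / 18)) -
        Real.log (8 * w / x / 18) * u ≤ -(2 * w) := by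
  have hw0 : 0 < w := hw ▸ Real.exp_pos x
  have hlw : Real.log w = x := by rw [← hw, Real.log_exp]
  have hu0 : 0 < 8 * w / x / 18 := by positivity
  have h4 : Real.log 4 ≤ 2 := by
    have : Real.log 4 = 2 * Real.log 2 := by
      rw [show (4 : ℝ) = 2 ^ 2 by norm_num, Real.log_pow]; norm_num
    linarith [Real.log_two_lt_d9]
  have hlx : Real.log x ≤ x / 4 + 1 := by
    have := Real.log_le_sub_one_of_pos (x := x / 4) (by linarith)
    rw [Real.log_div (by linarith) (by norm_num)] at this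
    linarith
  have he : x / 2 ≤ Real.log (8 * w / x / 18) := by
    have h1 : w / x / 4 ≤ 8 * w / x / 18 := by
      have : 0 < w / x := by positivity
      have e : 8 * w / x / 18 = 4 / 9 * (w / x) := by ring
      rw [e]; linarith
    have := Real.log_le_log (by positivity) h1
    rw [Real.log_div (by positivity) (by norm_num), Real.log_div (by positivity) (by positivity),
      hlw] at this
    linarith
  refine ⟨by linarith, ?_, ?_⟩
  · have h1 := Real.log_le_sub_one_of_pos hu0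
    have h2 : 8 * w / x ≤ 8 * w := div_le_self (by linarith) (by linarith)
    have : 0 < 8 * w / x := by positivity
    linarith
  · rw [Real.exp_log hu0]
    set e := Real.log (8 * w / x / 18)
    have h1 : e * (8 * w / x) ≤ e * u := mul_le_mul_of_nonneg_left hu (by linarith)
    have h2 : x / 2 * (8 * w / x) ≤ e * (8 * w / x) :=
      mul_le_mul_of_nonneg_right he (by positivity)
    have h3 : x / 2 * (8 * w / x) = 4 * w := by field_simp; ring
    nlinarith

end Pool.Agent.P.MP_26a8c3_nt.Adm
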