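import Pool.Agent.P.MP_26a8c3_nt.Adm.Euler
import Pool.Agent.P.MP_a14ce1_nt.Ch.Mertens

/-! The truncated logarithmic moment of the smooth cofactor. -/

open Finset

namespace Pool.Agent.P.MP_26a8c3_nt.Adm

/-- odd primes up to `Y` -/
def OP (Y : ℕ) : Finset ℕ := ((Ioc 0 Y).filter Nat.Prime).erase 2

lemma mem_OP {Y q : ℕ} : q ∈ OP Y ↔ q ≠ 2 ∧ q ≤ Y ∧ q.Prime := by
  unfold OP
  simp only [mem_erase, mem_filter, mem_Ioc]
  constructor
  · rintro ⟨a, ⟨_, b⟩, c⟩; exact ⟨a, b, c⟩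
  · rintro ⟨a, b, c⟩; exact ⟨a, ⟨c.pos, b⟩, c⟩

lemma OP_three {Y q : ℕ} (h : q ∈ OP Y) : 3 ≤ q := by
  obtain ⟨a, _, c⟩ := mem_OP.1 h
  have := c.two_le
  omega

lemma mertens_OP : ∃ C : ℝ, 0 < C ∧ ∀ Y : ℕ, 2 ≤ Y →
    |∑ q ∈ OP Y, Real.log q / q - Real.log Y| ≤ C := by
  obtain ⟨C, hC, h⟩ := Pool.Agent.P.MP_a14ce1_nt.Ch.Mertens.mertens_nat
  refine ⟨C + 1, by linarith, fun Y hY => ?_⟩
  have h1 := h Y (by omega)
  unfold Pool.Agent.P.MP_a14ce1_nt.Ch.Mertens.A at h1
  have h2 : (2 : ℕ) ∈ (Ioc 0 Y).filter Nat.Prime := by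
    simp only [mem_filter, mem_Ioc]; exact ⟨⟨by norm_num, hY⟩, Nat.prime_two⟩
  rw [← add_sum_erase _ _ h2] at h1
  have h3 : 0 < Real.log 2 := Real.log_pos (by norm_num)
  have h4 := Real.log_two_lt_d9
  unfold OP
  rw [abs_le] at h1 ⊢
  push_cast at h1
  constructor <;> linarith [h1.1, h1.2]

open Classical in
/-- the odd `Y`-smooth numbers up to `M` -/
noncomputable def Sm (Y M : ℕ) : Finset ℕ :=
  (Icc 1 M).filter (fun m => m ∈ Nat.factoredNumbers (OP Y))

lemma pointwise {s r a lam : ℝ} (hr : 0 ≤ r) (ha : 0 ≤ a) (hl : a * s = lam) {m M : ℕ} (hm : 1 ≤ m)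
    (hM : 1 ≤ M) :
    (1 + a) - a * (m : ℝ) ^ (-s) - (1 + a) * (M : ℝ) ^ (-r) * (m : ℝ) ^ r ≤
      if m ≤ M then 1 + lam * Real.log m else 0 := by
  have hm' : (0 : ℝ) < m := by exact_mod_cast hm
  have hM' : (0 : ℝ) < M := by exact_mod_cast hM
  have h0 : 0 ≤ (m : ℝ) ^ (-s) := Real.rpow_nonneg hm'.le _
  split_ifs with h
  · have h1 : 1 - s * Real.log m ≤ (m : ℝ) ^ (-s) := by
      rw [Real.rpow_def_of_pos hm']
      have := Real.add_one_le_exp (Real.log m * -s)
      linarith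
    have h2 : 0 ≤ (1 + a) * (M : ℝ) ^ (-r) * (m : ℝ) ^ r := by positivity
    have h3 := mul_le_mul_of_nonneg_left h1 ha
    rw [← hl]
    nlinarith
  · have h1 : (M : ℝ) ^ r ≤ (m : ℝ) ^ r :=
      Real.rpow_le_rpow hM'.le (by exact_mod_cast (not_le.1 h).le) hr
    have h2 : 1 ≤ (M : ℝ) ^ (-r) * (m : ℝ) ^ r := by
      rw [Real.rpow_neg hM'.le, ← div_eq_inv_mul, le_div_iff₀ (Real.rpow_pos_of_pos hM' _)]
      linarith
    have h3 := mul_le_mul_of_nonneg_left h2 (show 0 ≤ 1 + a by linarith)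
    have h4 := mul_nonneg ha h0
    nlinarith

theorem moment : ∃ Y0 : ℝ, ∀ (Y M : ℕ) (lam e : ℝ), 2 ≤ Y → Y0 ≤ Real.log Y → 1 ≤ M → 0 ≤ lam →
    2 * lam * Real.log Y ≤ 1 → 0 ≤ e → 2 * e ≤ Real.log Y →
    1 + lam * Real.log Y / 8 -
        2 * Real.exp (9 * e * Real.exp e - e * (Real.log M / Real.log Y)) ≤
      ∑ m ∈ Sm Y M, (∏ q ∈ OP Y, surv q m) / m * (1 + lam * Real.log m) := by
  classical
  obtain ⟨C, hC, hme⟩ := mertens_OP
  refine ⟨2 * C + 1, fun Y M lam e hY hY0 hM hlam hl2 he he2 => ?_⟩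
  set L := Real.log Y with hL
  have hL1 : 1 ≤ L := by linarith
  set s := 1 / (2 * L) with hs
  have hs0 : 0 < s := by positivity
  have hs1 : s < 1 := by rw [hs, div_lt_one (by linarith)]; linarith
  set r := e / L with hr
  have hr0 : 0 ≤ r := by positivity
  have hr1 : r ≤ 1 / 2 := by rw [hr, div_le_iff₀ (by linarith)]; linarith
  have hrL : r * L = e := by rw [hr]; field_simp
  set a := 2 * lam * L with ha
  have ha0 : 0 ≤ a := by positivity
  have has : a * s = lam := by rw [ha, hs]; field_simp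
  have hP : ∀ q ∈ OP Y, q.Prime ∧ q ≠ 2 := fun q hq => ⟨(mem_OP.1 hq).2.2, (mem_OP.1 hq).1⟩
  have hsq : ∀ q ∈ OP Y, s * Real.log q ≤ 1 / 2 := by
    intro q hq
    have h3 : (3 : ℝ) ≤ q := by exact_mod_cast OP_three hq
    have : Real.log q ≤ L := Real.log_le_log (by linarith) (by exact_mod_cast (mem_OP.1 hq).2.1)
    rw [hs, div_mul_eq_mul_div, div_le_iff₀ (by linarith)]
    linarith
  have hrq : ∀ q ∈ OP Y, r * Real.log q ≤ e := by
    intro q hq
    have h3 : (3 : ℝ) ≤ q := by exact_mod_cast OP_three hq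
    have : Real.log q ≤ L := Real.log_le_log (by linarith) (by exact_mod_cast (mem_OP.1 hq).2.1)
    rw [← hrL]
    exact mul_le_mul_of_nonneg_left this hr0
  have hmer := abs_le.1 (hme Y hY)
  have e0 := euler (OP Y) hP (s := 0) (by norm_num)
  have ep := euler (OP Y) hP (s := r) (by linarith)
  have en := euler (OP Y) hP (s := -s) (by linarith)
  rw [prod_eq_one fun q hq => GG_zero (OP_three hq)] at e0
  have bp : ∏ q ∈ OP Y, GG r q ≤ Real.exp (9 * e * Real.exp e) := by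
    calc _ ≤ ∏ q ∈ OP Y, Real.exp (9 / 2 * Real.exp e * r * (Real.log q / q)) :=
          prod_le_prod (fun q hq => GG_nonneg (by linarith) (hP q hq).1)
            fun q hq => GG_pos_le hr0 hr1 (OP_three hq) (hrq q hq)
      _ = Real.exp (9 / 2 * Real.exp e * r * ∑ q ∈ OP Y, Real.log q / q) := by
          rw [mul_sum, Real.exp_sum]
      _ ≤ _ := by
          rw [Real.exp_le_exp]
          have h1 : ∑ q ∈ OP Y, Real.log q / q ≤ 2 * L := by linarith [hmer.2]
          have := mul_le_mul_of_nonneg_left h1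
            (show 0 ≤ 9 / 2 * Real.exp e * r by positivity)
          have h2 : 9 / 2 * Real.exp e * r * (2 * L) = 9 * (r * L) * Real.exp e := by ring
          rw [h2, hrL] at this
          exact this
  have bn : ∏ q ∈ OP Y, GG (-s) q ≤ 15 / 16 := by
    calc _ ≤ ∏ q ∈ OP Y, Real.exp (-(s / 2 * (Real.log q / q))) :=
          prod_le_prod (fun q hq => GG_nonneg (by linarith) (hP q hq).1)
            fun q hq => GG_neg_le hs0.le (OP_three hq) (hsq q hq)
      _ = Real.exp (-(s / 2 * ∑ q ∈ OP Y, Real.log q / q)) := by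
          rw [mul_sum, ← sum_neg_distrib, Real.exp_sum]
      _ ≤ Real.exp (-(1 / 8)) := by
          rw [Real.exp_le_exp]
          have h1 : L / 2 ≤ ∑ q ∈ OP Y, Real.log q / q := by linarith [hmer.1]
          have h2 : s * (2 * L) = 1 := by rw [hs]; field_simp
          have := mul_le_mul_of_nonneg_left h1 hs0.le
          linarith
      _ ≤ _ := by
          rw [Real.exp_neg, inv_le_comm₀ (Real.exp_pos _) (by norm_num)]
          linarith [Real.add_one_le_exp (1 / 8 : ℝ)]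
  have tot := ((e0.mul_left (1 + a)).sub (en.mul_left a)).sub
    (ep.mul_left ((1 + a) * (M : ℝ) ^ (-r)))
  set w : ℕ → ℝ := fun m => ∏ q ∈ OP Y, surv q m with hw
  have hw0 : ∀ m, 0 ≤ w m := fun m =>
    prod_nonneg fun q hq => surv_nonneg (hP q hq).1.two_le m
  have tot2 : HasSum ((Nat.factoredNumbers (OP Y)).indicator fun m : ℕ =>
      (1 + a) * (w m * (m : ℝ) ^ ((0 : ℝ) - 1)) - a * (w m * (m : ℝ) ^ (-s - 1)) -
        (1 + a) * (M : ℝ) ^ (-r) * (w m * (m : ℝ) ^ (r - 1))) _ :=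
    hasSum_subtype_iff_indicator.1 tot
  have fin : HasSum (fun m : ℕ => if m ∈ Sm Y M then w m / m * (1 + lam * Real.log m) else 0)
      (∑ m ∈ Sm Y M, w m / m * (1 + lam * Real.log m)) := by
    have := hasSum_sum_of_ne_finset_zero (L := SummationFilter.unconditional ℕ) (s := Sm Y M)
      (f := fun m : ℕ => if m ∈ Sm Y M then w m / m * (1 + lam * Real.log m) else 0)
      (fun m hm => if_neg hm)
    rwa [sum_congr rfl fun m hm => if_pos hm] at this
  have cmp := hasSum_le (fun m => ?_) tot2 fin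
  · have hM' : (0 : ℝ) < M := by exact_mod_cast hM
    have h1 : Real.exp (9 * e * Real.exp e - e * (Real.log M / L)) =
        (M : ℝ) ^ (-r) * Real.exp (9 * e * Real.exp e) := by
      rw [Real.rpow_def_of_pos hM', ← Real.exp_add, hr]; congr 1; ring
    rw [h1]
    have h2 : 0 ≤ (M : ℝ) ^ (-r) := Real.rpow_nonneg hM'.le _
    have h3 : 0 ≤ ∏ q ∈ OP Y, GG r q :=
      prod_nonneg fun q hq => GG_nonneg (by linarith) (hP q hq).1
    have h4 : (1 + a) * (M : ℝ) ^ (-r) * ∏ q ∈ OP Y, GG r q ≤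
        2 * (M : ℝ) ^ (-r) * Real.exp (9 * e * Real.exp e) := by
      gcongr; linarith
    have h5 := mul_le_mul_of_nonneg_left bn ha0
    have h6 : lam * L / 8 = a / 16 := by rw [ha]; ring
    rw [h6]
    refine le_trans ?_ cmp
    nlinarith
  · by_cases hm : m ∈ Nat.factoredNumbers (OP Y)
    · rw [Set.indicator_of_mem hm]
      have hm1 : 1 ≤ m := Nat.one_le_iff_ne_zero.2 hm.1
      have hm' : (0 : ℝ) < m := by exact_mod_cast hm1
      have hp := mul_le_mul_of_nonneg_left (pointwise hr0 ha0 has hm1 hM)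
        (div_nonneg (hw0 m) hm'.le)
      have hmem : m ∈ Sm Y M ↔ m ≤ M := by
        unfold Sm
        simp only [mem_filter, mem_Icc]
        exact ⟨fun h => h.1.2, fun h => ⟨⟨hm1, h⟩, hm⟩⟩
      have ee : (if m ∈ Sm Y M then w m / m * (1 + lam * Real.log m) else 0) =
          w m / m * (if m ≤ M then 1 + lam * Real.log m else 0) := by
        by_cases h : m ≤ M
        · rw [if_pos (hmem.2 h), if_pos h]
        · rw [if_neg (fun hh => h (hmem.1 hh)), if_neg h, mul_zero]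
      rw [ee]
      refine le_trans (le_of_eq ?_) hp
      rw [Real.rpow_sub hm', Real.rpow_sub hm', Real.rpow_sub hm', Real.rpow_zero, Real.rpow_one]
      ring
    · rw [Set.indicator_of_notMem hm, if_neg]
      intro h
      unfold Sm at h
      exact hm (mem_filter.1 h).2

end Pool.Agent.P.MP_26a8c3_nt.Adm
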