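import Pool.Agent.P.MP_0ad054_nt.An.Lup
import Pool.Agent.P.MP_0ad054_nt.An.Siegel
import Pool.Agent.P.MP_0ad054_nt.An.Zfree
import Pool.Agent.P.MP_0ad054_nt.An.Tauber
import Pool.Agent.P.MP_0ad054_nt.An.SW
import Pool.Agent.P.MP_26a8c3_nt.Adm.Build

/-! The prime number theorem as a lower bound, and the main term. -/

open Finset

namespace Pool.Agent.P.MP_26a8c3_nt.Adm

open Pool.Agent.P.MP_0ad054_nt

theorem pi_lower : ∃ C : ℝ, 0 < C ∧ ∀ x : ℝ, 3 ≤ x →
    x / Real.log x - C * x / Real.log x ^ 2 ≤ (Nat.primeCounting ⌊x⌋₊ : ℝ) := by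
  obtain ⟨C, hC, h⟩ := An.pnt An.lup (An.zfree An.lup (An.siegel An.lup)) An.tauber 1
  refine ⟨2 * C + 1, by linarith, fun x hx => ?_⟩
  set X := ⌊x⌋₊ with hX
  have hX3 : 3 ≤ X := Nat.le_floor (by exact_mod_cast hx)
  have hX3' : (3 : ℝ) ≤ X := by exact_mod_cast hX3
  have hXx : (X : ℝ) ≤ x := Nat.floor_le (by linarith)
  have hxX : x < X + 1 := Nat.lt_floor_add_one x
  have hl : 0 < Real.log x := Real.log_pos (by linarith)
  have hlX : Real.log x ≤ 2 * Real.log X := by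
    have : Real.log x ≤ Real.log ((X : ℝ) ^ 2) := Real.log_le_log (by linarith) (by nlinarith)
    rwa [Real.log_pow] at this
  have hlX0 : 0 < Real.log X := by linarith
  have h1 := (abs_le.1 (h X (by omega))).1
  have h2 := Chebyshev.psi_le_primeCounting_mul_log' x
  have h3 : Chebyshev.psi x = ∑ n ∈ Icc 1 X, ArithmeticFunction.vonMangoldt n := by
    rw [Chebyshev.psi]; rfl
  rw [h3] at h2
  have h4 : C * X / Real.log X ^ 1 ≤ 2 * C * x / Real.log x := by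
    rw [pow_one, div_le_div_iff₀ hlX0 hl]
    have : C * X * Real.log x ≤ C * x * (2 * Real.log X) := by gcongr
    linarith
  have h5 : 1 ≤ x / Real.log x := by
    rw [le_div_iff₀ hl]
    have := Real.log_le_sub_one_of_pos (x := x) (by linarith)
    linarith
  have h6 : x - (2 * C + 1) * x / Real.log x ≤ (Nat.primeCounting X : ℝ) * Real.log x := by
    have : (2 * C + 1) * x / Real.log x = 2 * C * x / Real.log x + x / Real.log x := by ring
    linarith
  have h7 : x / Real.log x - (2 * C + 1) * x / Real.log x ^ 2 =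
      (x - (2 * C + 1) * x / Real.log x) / Real.log x := by field_simp
  rw [h7, div_le_iff₀ hl]
  exact h6

/-- one cofactor -/
lemma pi_cof {C : ℝ} (hC : 0 < C) (h : ∀ x : ℝ, 3 ≤ x →
      x / Real.log x - C * x / Real.log x ^ 2 ≤ (Nat.primeCounting ⌊x⌋₊ : ℝ))
    {T m : ℕ} (hm : 1 ≤ m) (hT : 3 * m ≤ T) (hl : 2 * Real.log m ≤ Real.log T) :
    (T : ℝ) / Real.log T * (1 - 4 * C / Real.log T) *
        (1 / m * (1 + 1 / Real.log T * Real.log m)) ≤ (Nat.primeCounting (T / m) : ℝ) := by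
  have hm' : (1 : ℝ) ≤ m := by exact_mod_cast hm
  have hT' : 3 * (m : ℝ) ≤ T := by exact_mod_cast hT
  have hx : (3 : ℝ) ≤ (T : ℝ) / m := by rw [le_div_iff₀ (by linarith)]; exact hT'
  have h1 := h _ hx
  rw [Nat.floor_div_natCast, Nat.floor_natCast, Real.log_div (by linarith) (by linarith)] at h1
  refine le_trans ?_ h1
  set L := Real.log T
  set u := Real.log m
  have hu : 0 ≤ u := Real.log_nonneg hm'
  have hL : 0 < L := Real.log_pos (by linarith)
  have hLu : L / 2 ≤ L - u := by linarith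
  have hx0 : (0 : ℝ) ≤ (T : ℝ) / m := by linarith
  have a1 : 1 / L * (1 + 1 / L * u) ≤ 1 / (L - u) := by
    rw [le_div_iff₀ (by linarith)]
    have : 1 / L * (1 + 1 / L * u) * (L - u) = 1 - (u / L) ^ 2 := by field_simp; ring
    rw [this]; nlinarith [sq_nonneg (u / L)]
  have a2 : C / (L - u) ^ 2 ≤ 4 * C / L * (1 / L * (1 + 1 / L * u)) := by
    have b1 : C / (L - u) ^ 2 ≤ C / (L / 2) ^ 2 := by gcongr
    have b2 : C / (L / 2) ^ 2 = 4 * C / L * (1 / L * 1) := by field_simp; ring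
    have b3 : 4 * C / L * (1 / L * 1) ≤ 4 * C / L * (1 / L * (1 + 1 / L * u)) := by
      gcongr
      have : 0 ≤ 1 / L * u := by positivity
      linarith
    linarith
  have e1 : (T : ℝ) / L * (1 - 4 * C / L) * (1 / m * (1 + 1 / L * u)) =
      (T : ℝ) / m * (1 / L * (1 + 1 / L * u) - 4 * C / L * (1 / L * (1 + 1 / L * u))) := by ring
  have e2 : (T : ℝ) / m / (L - u) - C * (T / m) / (L - u) ^ 2 =
      (T : ℝ) / m * (1 / (L - u) - C / (L - u) ^ 2) := by ring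
  rw [e1, e2]
  exact mul_le_mul_of_nonneg_left (by linarith) hx0

/-- the size of the admissible set in terms of the parameters -/
theorem size : ∃ C : ℝ, 0 < C ∧ ∀ (T M' Y : ℕ) (S : Finset ℕ) (E : ℝ),
    (∀ q ∈ S, q.Prime ∧ q ≠ 2) → 2 ≤ Y → Y ≤ M' → 3 * M' ≤ T / (M' ^ 2 + 1) →
    ∏ q ∈ S, q ≤ T / (M' ^ 2 + 1) → 4 * C ≤ Real.log T →
    E ≤ ∑ m ∈ Sm Y M', (∏ q ∈ OP Y, surv q m) / m * (1 + 1 / Real.log T * Real.log m) →
    ∃ A : Finset ℕ, A ⊆ Icc 1 T ∧ (∀ p : ℕ, p.Prime → ∃ a : ℕ, ∀ n ∈ A, ¬ n ≡ a [MOD p]) ∧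
      (T : ℝ) / Real.log T * (1 - 4 * C / Real.log T) * E - T / M' -
        ((M' : ℝ) ^ 2 + 1) * (2 * T * (2 / 3) ^ S.card) ≤ A.card := by
  obtain ⟨C, hC, h⟩ := pi_lower
  refine ⟨C, hC, fun T M' Y S E hS hY hYM hz hQ hL hE => ?_⟩
  obtain ⟨A, h1, h2, h3⟩ := build T (M' ^ 2) M' Y S hS hY hYM (by omega) hQ
  refine ⟨A, h1, h2, le_trans ?_ h3⟩
  have hM : 1 ≤ M' := by omega
  have hM' : (1 : ℝ) ≤ M' := by exact_mod_cast hM
  have hzT : T / (M' ^ 2 + 1) ≤ T := Nat.div_le_self _ _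
  have hz2 : 3 * M' * (M' ^ 2 + 1) ≤ T := (Nat.le_div_iff_mul_le (by omega)).1 hz
  have hL0 : 0 < Real.log T := by linarith
  have hw0 : ∀ m, 0 ≤ ∏ q ∈ OP Y, surv q m := fun m =>
    prod_nonneg fun q hq => surv_nonneg (mem_OP.1 hq).2.2.two_le m
  have hw1 : ∀ m, ∏ q ∈ OP Y, surv q m ≤ 1 := fun m =>
    prod_le_one (fun q hq => surv_nonneg (mem_OP.1 hq).2.2.two_le m)
      fun q hq => surv_le_one (mem_OP.1 hq).2.2.two_le m
  have hf : 0 ≤ (T : ℝ) / Real.log T * (1 - 4 * C / Real.log T) := by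
    refine mul_nonneg (by positivity) ?_
    have : 4 * C / Real.log T ≤ 1 := by rw [div_le_one hL0]; exact hL
    linarith
  have a1 : (T : ℝ) / Real.log T * (1 - 4 * C / Real.log T) * E ≤
      ∑ m ∈ Sm Y M', (∏ q ∈ OP Y, surv q m) * (Nat.primeCounting (T / m) : ℝ) := by
    refine (mul_le_mul_of_nonneg_left hE hf).trans ?_
    rw [mul_sum]
    refine sum_le_sum fun m hm => ?_
    obtain ⟨⟨m1, m2⟩, _⟩ := mem_Sm.1 hm
    have m1' : (1 : ℝ) ≤ m := by exact_mod_cast m1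
    have hl : 2 * Real.log m ≤ Real.log T := by
      have : m ^ 2 ≤ T := by
        have : m ^ 2 ≤ M' ^ 2 := Nat.pow_le_pow_left m2 2
        nlinarith
      have h' : ((m : ℝ)) ^ 2 ≤ T := by exact_mod_cast this
      have := Real.log_le_log (by positivity) h'
      rwa [Real.log_pow] at this
    have := mul_le_mul_of_nonneg_left (pi_cof hC h m1 (by omega) hl) (hw0 m)
    refine le_trans (le_of_eq ?_) this
    ring
  have a2 : ∑ m ∈ Sm Y M', (∏ q ∈ OP Y, surv q m) * ((T / (M' ^ 2 + 1) : ℕ) : ℝ) ≤ T / M' := by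
    have b1 : (Sm Y M').card ≤ M' := by
      have : Sm Y M' ⊆ Icc 1 M' := fun m hm => mem_Icc.2 (mem_Sm.1 hm).1
      simpa using card_le_card this
    have b1' : ((Sm Y M').card : ℝ) ≤ M' := by exact_mod_cast b1
    have b2 : ((T / (M' ^ 2 + 1) : ℕ) : ℝ) ≤ (T : ℝ) / M' ^ 2 := by
      refine Nat.cast_div_le.trans ?_
      push_cast
      gcongr
      linarith
    calc _ ≤ ∑ _m ∈ Sm Y M', (T : ℝ) / M' ^ 2 := by
          refine sum_le_sum fun m _ => ?_
          have := mul_le_mul (hw1 m) b2 (by positivity) (by norm_num)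
          linarith
      _ = (Sm Y M').card * ((T : ℝ) / M' ^ 2) := by simp
      _ ≤ M' * ((T : ℝ) / M' ^ 2) := by gcongr
      _ = _ := by field_simp
  have a3 : ((T : ℝ) + (∏ q ∈ S, q : ℕ)) * (2 / 3) ^ S.card ≤ 2 * T * (2 / 3) ^ S.card := by
    have : ((∏ q ∈ S, q : ℕ) : ℝ) ≤ T := by exact_mod_cast hQ.trans hzT
    gcongr
    linarith
  have a4 := mul_le_mul_of_nonneg_left a3 (show (0 : ℝ) ≤ (M' : ℝ) ^ 2 + 1 by positivity)
  simp only [mul_sub, sum_sub_distrib]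
  push_cast at a4 ⊢
  simp only [mul_sub] at a1
  linarith

end Pool.Agent.P.MP_26a8c3_nt.Adm
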